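import Pool.Agent.MP_6b3e96_gt.H77.Spec2
import Pool.Agent.MP_6b3e96_gt.H28.Fold

/-!
The bounds for the exact solution: interior gradient estimates in two charts.
-/

open scoped ContDiff Real
open Set Filter Topology Complex

noncomputable section

namespace Pool.Agent.MP_6b3e96_gt.H96

open Pool.Agent.MP_6b3e96_gt.H77 Pool.Agent.MP_6b3e96_gt.H28

/-- The slope of the folding map. -/
def sl (t : ℝ) : ℝ := if t < 0 then -1 else if t ≤ 1 then 1 else -1

lemma glue {g G G' : ℝ → ℝ} {c t : ℝ} (h : g =ᶠ[𝓝[<] t] G) (h' : g =ᶠ[𝓝[>] t] G')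
    (e : g t = G t) (e' : g t = G' t) (hG : HasDerivAt G c t) (hG' : HasDerivAt G' c t) :
    HasDerivAt g c t := by
  have a := (hG.hasDerivWithinAt.congr_of_eventuallyEq h e).Iic_of_Iio
  have b := (hG'.hasDerivWithinAt.congr_of_eventuallyEq h' e').Ici_of_Ioi
  have := a.union b
  rwa [Iic_union_Ici, hasDerivWithinAt_univ] at this

lemma side {t : ℝ} (ht : t ∈ Ioo (-1 : ℝ) 2) :
    (∃ a e : ℝ, e * e = 1 ∧ fold1 t = a + e * t ∧ (e = sl t ∨ fold1 t = 0 ∨ fold1 t = 1) ∧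
      ∀ᶠ s in 𝓝[<] t, fold1 s = a + e * s ∧ sl s = e) ∧
    ∃ a e : ℝ, e * e = 1 ∧ fold1 t = a + e * t ∧ (e = sl t ∨ fold1 t = 0 ∨ fold1 t = 1) ∧
      ∀ᶠ s in 𝓝[>] t, fold1 s = a + e * s ∧ sl s = e := by
  have m : ∀ {x : ℝ}, x ∈ Icc (0 : ℝ) 1 → fold1 x = 0 + 1 * x := fun h => by
    rw [fold1_of_mem h]; ring
  constructor
  · rcases le_or_gt t 0 with h0 | h0
    · refine ⟨0, -1, by norm_num, fold1_left ⟨ht.1.le, h0⟩, ?_, ?_⟩
      · rcases h0.lt_or_eq with h | rfl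
        · exact Or.inl (by simp [sl, h])
        · exact Or.inr (Or.inl (fold1_of_mem (by simp)))
      · filter_upwards [Ioo_mem_nhdsLT ht.1] with s hs
        exact ⟨fold1_left ⟨hs.1.le, by linarith [hs.2]⟩, if_pos (by linarith [hs.2])⟩
    rcases le_or_gt t 1 with h1 | h1
    · refine ⟨0, 1, by norm_num, m ⟨h0.le, h1⟩, Or.inl (by simp [sl, h0.le, h1]), ?_⟩
      filter_upwards [Ioo_mem_nhdsLT h0] with s hs
      exact ⟨m ⟨hs.1.le, by linarith [hs.2]⟩, by simp [sl, hs.1.le, hs.2.le.trans h1]⟩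
    · refine ⟨2, -1, by norm_num, fold1_right ⟨h1.le, ht.2.le⟩, Or.inl (by simp [sl, h1]), ?_⟩
      filter_upwards [Ioo_mem_nhdsLT h1] with s hs
      exact ⟨fold1_right ⟨hs.1.le, by linarith [hs.2, ht.2]⟩, by simp [sl, hs.1]⟩
  · rcases lt_or_ge t 0 with h0 | h0
    · refine ⟨0, -1, by norm_num, fold1_left ⟨ht.1.le, h0.le⟩, Or.inl (by simp [sl, h0]), ?_⟩
      filter_upwards [Ioo_mem_nhdsGT h0] with s hs
      exact ⟨fold1_left ⟨by linarith [hs.1, ht.1], hs.2.le⟩, if_pos hs.2⟩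
    rcases lt_or_ge t 1 with h1 | h1
    · refine ⟨0, 1, by norm_num, m ⟨h0, h1.le⟩, Or.inl (by simp [sl, h0, h1.le]), ?_⟩
      filter_upwards [Ioo_mem_nhdsGT h1] with s hs
      exact ⟨m ⟨h0.trans hs.1.le, hs.2.le⟩, by simp [sl, h0.trans hs.1.le, hs.2.le]⟩
    · refine ⟨2, -1, by norm_num, fold1_right ⟨h1, ht.2.le⟩, ?_, ?_⟩
      · rcases h1.lt_or_eq with h | rfl
        · exact Or.inl (by simp [sl, h])
        · exact Or.inr (Or.inr (fold1_of_mem (by simp)))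
      · filter_upwards [Ioo_mem_nhdsGT ht.2] with s hs
        exact ⟨fold1_right ⟨h1.trans hs.1.le, hs.2.le⟩, by simp [sl, h1.trans_lt hs.1]⟩

lemma aff {K : ℝ → ℝ} {a e t c x : ℝ} (hx : x = a + e * t) (hK : HasDerivAt K c x) :
    HasDerivAt (fun s => K (a + e * s)) (c * e) t := by
  have hl : HasDerivAt (fun s => a + e * s) e t := by
    simpa using ((hasDerivAt_id t).const_mul e).const_add a
  subst hx
  exact hK.comp t hl

lemma fold_d1 {K : ℝ → ℝ} {c t : ℝ} (ht : t ∈ Ioo (-1 : ℝ) 2) (hK : HasDerivAt K c (fold1 t))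
    (hN : fold1 t = 0 ∨ fold1 t = 1 → c = 0) : HasDerivAt (fun s => K (fold1 s)) (sl t * c) t := by
  obtain ⟨⟨a, e, -, h2, h3, h4⟩, a', e', -, h2', h3', h4'⟩ := side ht
  refine glue (h4.mono fun s hs => congrArg K hs.1) (h4'.mono fun s hs => congrArg K hs.1)
    (congrArg K h2) (congrArg K h2') ((aff h2 hK).congr_deriv ?_) ((aff h2' hK).congr_deriv ?_)
  · rcases h3 with h | h
    · rw [h, mul_comm]
    · simp [hN h]
  · rcases h3' with h | h
    · rw [h, mul_comm]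
    · simp [hN h]

lemma fold_d2 {K : ℝ → ℝ} {c t : ℝ} (ht : t ∈ Ioo (-1 : ℝ) 2) (hK : HasDerivAt K c (fold1 t))
    (hN : fold1 t = 0 ∨ fold1 t = 1 → K (fold1 t) = 0) :
    HasDerivAt (fun s => sl s * K (fold1 s)) c t := by
  obtain ⟨⟨a, e, h1, h2, h3, h4⟩, a', e', h1', h2', h3', h4'⟩ := side ht
  refine glue (G := fun s => e * K (a + e * s)) (G' := fun s => e' * K (a' + e' * s))
    (h4.mono fun s hs => by simp only [hs.1, hs.2]) (h4'.mono fun s hs => by simp only [hs.1, hs.2])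
    ?_ ?_ (((aff h2 hK).const_mul e).congr_deriv (by linear_combination c * h1))
    (((aff h2' hK).const_mul e').congr_deriv (by linear_combination c * h1'))
  · rw [← h2]
    rcases h3 with h | h
    · rw [h]
    · simp [hN h]
  · rw [← h2']
    rcases h3' with h | h
    · rw [h]
    · simp [hN h]

lemma line1 {f : ℂ → ℝ} {x y : ℝ} (hf : DifferentiableAt ℝ f ⟨x, y⟩) :
    HasDerivAt (fun t : ℝ => f ⟨t, y⟩) (d1 f ⟨x, y⟩) x := by
  have e : ∀ t : ℝ, (⟨0, y⟩ : ℂ) + t • (1 : ℂ) = ⟨t, y⟩ := fun t => by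
    apply Complex.ext <;> simp
  have := hasDerivAt_line (f := f) ⟨0, y⟩ 1 x (by rwa [e])
  simp only [e] at this
  exact this

lemma line2 {f : ℂ → ℝ} {x y : ℝ} (hf : DifferentiableAt ℝ f ⟨x, y⟩) :
    HasDerivAt (fun t : ℝ => f ⟨x, t⟩) (d2 f ⟨x, y⟩) y := by
  have e : ∀ t : ℝ, (⟨x, 0⟩ : ℂ) + t • I = ⟨x, t⟩ := fun t => by
    apply Complex.ext <;> simp
  have := hasDerivAt_line (f := f) ⟨x, 0⟩ I y (by rwa [e])
  simp only [e] at this
  exact this

lemma diff_dv {f : ℂ → ℝ} {z : ℂ} (hf : ContDiffAt ℝ 2 f z) (v : ℂ) :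
    DifferentiableAt ℝ (dv v f) z :=
  (contDiffAt_dv v (m := 1) hf (by norm_num)).differentiableAt (by norm_num)

lemma even_deriv {k : ℝ → ℝ} {a c : ℝ} (hk : HasDerivAt k c a) (h : ∀ t, k (2 * a - t) = k t) :
    c = 0 := by
  have h1 := aff (a := 2 * a) (e := -1) (t := a) (by ring) hk
  have h2 : (fun s => k (2 * a + -1 * s)) = k := funext fun s => by rw [← h s]; congr 1; ring
  rw [h2] at h1
  linarith [h1.unique hk]

lemma continuous_mk : Continuous fun p : ℝ × ℝ => (⟨p.1, p.2⟩ : ℂ) :=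
  Complex.equivRealProdCLM.symm.continuous

/-- The estimate for a function that is smooth near the square. -/
lemma brandt_smooth (hB : BrandtStmt) {φ : ℂ → ℝ} {z : ℂ} {r ε M : ℝ} (hr : 0 < r)
    (h : ∀ p : ℂ, |p.re - z.re| ≤ r → |p.im - z.im| ≤ r →
      ContDiffAt ℝ 2 φ p ∧ |φ p| ≤ ε ∧ |lap φ p| ≤ M) :
    |d1 φ z| ≤ 2 * ε / r + r * M / 2 ∧ |d2 φ z| ≤ 2 * ε / r + r * M / 2 := by
  have h' : ∀ x ∈ Icc (z.re - r) (z.re + r), ∀ y ∈ Icc (z.im - r) (z.im + r), _ :=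
    fun x hx y hy => h ⟨x, y⟩ (abs_le.2 ⟨by linarith [hx.1], by linarith [hx.2]⟩)
      (abs_le.2 ⟨by linarith [hy.1], by linarith [hy.2]⟩)
  refine hB (fun x y => φ ⟨x, y⟩) (fun x y => d1 φ ⟨x, y⟩) (fun x y => d1 (d1 φ) ⟨x, y⟩)
    (fun x y => d2 φ ⟨x, y⟩) (fun x y => d2 (d2 φ) ⟨x, y⟩) z.re z.im r ε M hr ?_
    (fun x hx y hy => (h' x hx y hy).2.1) fun x hx y hy => ?_
  · intro p hp
    exact (ContinuousAt.comp (f := fun p : ℝ × ℝ => (⟨p.1, p.2⟩ : ℂ))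
      (h' _ hp.1 _ hp.2).1.continuousAt continuous_mk.continuousAt).continuousWithinAt
  · obtain ⟨a, -, b⟩ := h' x (Ioo_subset_Icc_self hx) y (Ioo_subset_Icc_self hy)
    have c := a.differentiableAt (by norm_num)
    exact ⟨line1 c, line1 (diff_dv a 1), line2 c, line2 (diff_dv a I), b⟩

/-- The estimate for a folded function. -/
lemma brandt_fold (hB : BrandtStmt) {v : ℂ → ℝ} {w : ℂ} {ε M : ℝ} (hw : w ∈ Sq)
    (hw' : 0.175 ≤ mx w) (hc : ∀ p ∈ Sq, p ≠ 0 → ContDiffAt ℝ 2 v p)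
    (h1 : ∀ p ∈ Sq, p ≠ 0 → p.re = 0 ∨ p.re = 1 → d1 v p = 0)
    (h2 : ∀ p ∈ Sq, p ≠ 0 → p.im = 0 ∨ p.im = 1 → d2 v p = 0)
    (hε : ∀ p ∈ Sq, p ≠ 0 → |v p| ≤ ε) (hM : ∀ p ∈ Sq, 0.05 ≤ mx p → |lap v p| ≤ M) :
    |d2 v w| ≤ 16 * ε + M / 16 := by
  have f1 : ∀ {a x : ℝ}, a ∈ Icc (0 : ℝ) 1 → x ∈ Icc (a - 1 / 8) (a + 1 / 8) →
      x ∈ Ioo (-1 : ℝ) 2 ∧ (0.175 ≤ a → 0.05 ≤ fold1 x) := by
    intro a x ha hx
    refine ⟨⟨by linarith [ha.1, hx.1], by linarith [ha.2, hx.2]⟩, fun h => ?_⟩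
    rcases le_total x 1 with e | e
    · rw [fold1_of_mem ⟨by linarith [hx.1], e⟩]; linarith [hx.1]
    · rw [fold1_right ⟨e, by linarith [ha.2, hx.2]⟩]; linarith [ha.2, hx.2]
  have f2 : ∀ x ∈ Icc (w.re - 1 / 8) (w.re + 1 / 8), ∀ y ∈ Icc (w.im - 1 / 8) (w.im + 1 / 8),
      0.05 ≤ mx ⟨fold1 x, fold1 y⟩ ∧ (⟨fold1 x, fold1 y⟩ : ℂ) ≠ 0 := by
    intro x hx y hy
    have : 0.05 ≤ mx ⟨fold1 x, fold1 y⟩ := by
      rcases le_max_iff.1 hw' with e | e
      · exact le_max_of_le_left ((f1 hw.1 hx).2 e)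
      · exact le_max_of_le_right ((f1 hw.2 hy).2 e)
    refine ⟨this, fun e => ?_⟩
    rw [e] at this
    norm_num [mx] at this
  have := (hB (fun x y => v ⟨fold1 x, fold1 y⟩) (fun x y => sl x * d1 v ⟨fold1 x, fold1 y⟩)
    (fun x y => d1 (d1 v) ⟨fold1 x, fold1 y⟩) (fun x y => sl y * d2 v ⟨fold1 x, fold1 y⟩)
    (fun x y => d2 (d2 v) ⟨fold1 x, fold1 y⟩) w.re w.im (1 / 8) ε M (by norm_num) ?_
    (fun x hx y hy => hε _ (fold_mem ⟨x, y⟩) (f2 x hx y hy).2) fun x hx y hy => ?_).2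
  · have e : sl w.im = 1 := by simp [sl, hw.2.1, hw.2.2]
    simp only [e, one_mul, fold1_of_mem hw.1, fold1_of_mem hw.2] at this
    linarith
  · intro p hp
    have c : Continuous fun p : ℝ × ℝ => (⟨fold1 p.1, fold1 p.2⟩ : ℂ) :=
      continuous_mk.comp (continuous_fold1.prodMap continuous_fold1)
    exact (ContinuousAt.comp (f := fun p : ℝ × ℝ => (⟨fold1 p.1, fold1 p.2⟩ : ℂ))
      (hc _ (fold_mem ⟨p.1, p.2⟩) (f2 _ hp.1 _ hp.2).2).continuousAt
      c.continuousAt).continuousWithinAt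
  · have hx' := Ioo_subset_Icc_self hx
    have hy' := Ioo_subset_Icc_self hy
    obtain ⟨a, b⟩ := f2 x hx' y hy'
    have m : (⟨fold1 x, fold1 y⟩ : ℂ) ∈ Sq := fold_mem ⟨x, y⟩
    have c := hc _ m b
    have c' := c.differentiableAt (by norm_num)
    exact ⟨fold_d1 (K := fun t => v ⟨t, fold1 y⟩) (f1 hw.1 hx').1 (line1 c') (h1 _ m b),
      fold_d2 (K := fun t => d1 v ⟨t, fold1 y⟩) (f1 hw.1 hx').1 (line1 (diff_dv c 1)) (h1 _ m b),
      fold_d1 (K := fun t => v ⟨fold1 x, t⟩) (f1 hw.2 hy').1 (line2 c') (h2 _ m b),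
      fold_d2 (K := fun t => d2 v ⟨fold1 x, t⟩) (f1 hw.2 hy').1 (line2 (diff_dv c I)) (h2 _ m b),
      hM _ m a⟩

lemma lap_sub {f g : ℂ → ℝ} {z : ℂ} (hf : ContDiffAt ℝ 2 f z) (hg : ContDiffAt ℝ 2 g z) :
    lap (fun w => f w - g w) z = lap f z - lap g z := by
  have key : ∀ e, dv e (dv e fun w => f w - g w) z = dv e (dv e f) z - dv e (dv e g) z := by
    intro e
    have h1 : (dv e fun w => f w - g w) =ᶠ[𝓝 z] fun w => dv e f w - dv e g w := by
      filter_upwards [hf.eventually (by simp), hg.eventually (by simp)] with w h h'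
      rw [dv, fderiv_fun_sub (h.differentiableAt (by norm_num)) (h'.differentiableAt (by norm_num))]
      rfl
    rw [dv, h1.fderiv_eq, fderiv_fun_sub (diff_dv hf e) (diff_dv hg e)]
    rfl
  change dv 1 (dv 1 _) z + dv I (dv I _) z = dv 1 (dv 1 _) z + dv I (dv I _) z -
    (dv 1 (dv 1 _) z + dv I (dv I _) z)
  rw [key, key]
  ring

lemma lap_congr {f g : ℂ → ℝ} {z : ℂ} (h : f =ᶠ[𝓝 z] g) : lap f z = lap g z := by
  have key : ∀ e, dv e (dv e f) z = dv e (dv e g) z := fun e => by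
    have : dv e f =ᶠ[𝓝 z] dv e g := (h.fderiv (𝕜 := ℝ)).mono fun w hw => by simp only [dv, hw]
    rw [dv, this.fderiv_eq]
    rfl
  change dv 1 (dv 1 _) z + dv I (dv I _) z = dv 1 (dv 1 _) z + dv I (dv I _) z
  rw [key, key]

lemma hasFDerivAt_sq (z : ℂ) :
    HasFDerivAt (fun z : ℂ => z ^ 2) ((ContinuousLinearMap.mul ℝ ℂ) (2 * z)) z := by
  have := ((hasDerivAt_pow 2 z).hasFDerivAt.restrictScalars ℝ)
  refine this.congr_fderiv ?_
  ext
  simp [mul_comm]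

lemma dv_sq {f : ℂ → ℝ} {z : ℂ} (hf : DifferentiableAt ℝ f (z ^ 2)) (e : ℂ) :
    dv e (fun z => f (z ^ 2)) z = fderiv ℝ f (z ^ 2) (2 * z * e) := by
  rw [dv, show (fun z => f (z ^ 2)) = f ∘ fun z => z ^ 2 from rfl,
    (hf.hasFDerivAt.comp z (hasFDerivAt_sq z)).fderiv]
  rfl

lemma lap_sq {f : ℂ → ℝ} {z : ℂ} (hf : ContDiffAt ℝ 2 f (z ^ 2)) :
    lap (fun z => f (z ^ 2)) z = 4 * ‖z‖ ^ 2 * lap f (z ^ 2) := by
  have hF : DifferentiableAt ℝ (fderiv ℝ f) (z ^ 2) :=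
    (hf.fderiv_right (m := 1) (by norm_num)).differentiableAt (by norm_num)
  set B := fderiv ℝ (fderiv ℝ f) (z ^ 2) with hB
  have k1 : ∀ e, dv e (dv e f) (z ^ 2) = B e e := fun e => by
    have := (hF.hasFDerivAt.clm_apply (hasFDerivAt_const e (z ^ 2))).fderiv
    change fderiv ℝ (fun w => fderiv ℝ f w e) (z ^ 2) e = _
    rw [this]
    simp [hB]
  have k2 : ∀ e, dv e (dv e fun z => f (z ^ 2)) z =
      B (2 * z * e) (2 * z * e) + fderiv ℝ f (z ^ 2) (2 * e * e) := fun e => by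
    have h1 : (dv e fun z => f (z ^ 2)) =ᶠ[𝓝 z] fun ζ => fderiv ℝ f (ζ ^ 2) (2 * e * ζ) := by
      filter_upwards [(continuous_pow 2).continuousAt.eventually (hf.eventually (by simp))]
        with ζ h
      rw [dv_sq (h.differentiableAt (by norm_num)), mul_right_comm]
    have h2 := (hF.hasFDerivAt.comp z (hasFDerivAt_sq z)).clm_apply
      ((ContinuousLinearMap.mul ℝ ℂ) (2 * e)).hasFDerivAt
    rw [dv, h1.fderiv_eq]
    refine (congrArg (fun L : ℂ →L[ℝ] ℝ => L e) h2.fderiv).trans ?_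
    simp [hB, add_comm, mul_right_comm]
  change dv 1 (dv 1 _) z + dv I (dv I _) z = _ * (dv 1 (dv 1 _) _ + dv I (dv I _) _)
  have e1 : 2 * z * 1 = (2 * z.re) • (1 : ℂ) + (2 * z.im) • I := by
    apply Complex.ext <;> simp
  have e2 : 2 * z * I = (-(2 * z.im)) • (1 : ℂ) + (2 * z.re) • I := by
    apply Complex.ext <;> simp
  have e3 : 2 * I * I = -(2 * 1 * 1) := by rw [mul_assoc, I_mul_I]; ring
  rw [k1, k1, k2, k2, e1, e2, e3, Complex.sq_norm, normSq_apply]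
  simp only [map_add, map_smul, map_neg, add_apply, smul_apply, smul_eq_mul]
  ring

lemma lap_refl {f : ℂ → ℝ} (σ : ℂ ≃L[ℝ] ℂ) (h1 : σ 1 = 1 ∨ σ 1 = -1) (h2 : σ I = I ∨ σ I = -I)
    (hf : ∀ w, f (σ w) = f w) (z : ℂ) : lap f (σ z) = lap f z := by
  have k0 : ∀ (g : ℂ → ℝ) e, dv e (g ∘ σ) = dv (σ e) g ∘ σ := fun g e => funext fun w => by
    simp only [dv, Function.comp_apply, σ.comp_right_fderiv]
    rfl
  have k1 : ∀ e, dv (-e) (dv (-e) f) = dv e (dv e f) := fun e => funext fun w => by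
    have : dv (-e) f = fun w => -dv e f w := funext fun w => by simp [dv]
    rw [this, dv, fderiv_fun_neg]
    simp [dv]
  have k2 : ∀ e, σ e = e ∨ σ e = -e → dv e (dv e f) (σ z) = dv e (dv e f) z := fun e he => by
    have : f ∘ σ = f := funext hf
    conv_rhs => rw [← this, k0, k0]
    rcases he with he | he
    · rw [he]; rfl
    · rw [he, k1]; rfl
  change dv 1 (dv 1 _) _ + dv I (dv I _) _ = dv 1 (dv 1 _) z + dv I (dv I _) z
  rw [k2 1 h1, k2 I h2]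

lemma exp_small {x : ℝ} (hx : |x| ≤ 0.0004) : |Real.exp x - 1| ≤ 0.000401 := by
  have h := Real.abs_exp_sub_one_sub_id_le (x := x) (hx.trans (by norm_num))
  have h2 : x ^ 2 ≤ 0.0004 ^ 2 := by rw [← sq_abs]; gcongr
  rw [abs_le] at h hx ⊢
  constructor <;> nlinarith [h.1, h.2, hx.1, hx.2]

lemma norm_le_mx {w : ℂ} (hw : w ∈ Sq) : mx w ≤ ‖w‖ ∧ ‖w‖ ≤ 1.42 * mx w ∧ mx w ≤ 1 := by
  have h1 : w.re ≤ mx w := le_max_left _ _
  have h2 : w.im ≤ mx w := le_max_right _ _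
  have a := hw.1.1
  have b := hw.2.1
  refine ⟨max_le ((le_abs_self _).trans (abs_re_le_norm w)) ((le_abs_self _).trans
    (abs_im_le_norm w)), ?_, max_le hw.1.2 hw.2.2⟩
  refine abs_le_of_sq_le_sq' ?_ (by nlinarith) |>.2
  rw [Complex.sq_norm, normSq_apply]
  nlinarith [mul_le_mul h1 h1 a (a.trans h1), mul_le_mul h2 h2 b (b.trans h2)]

lemma sr0_eq (w : ℂ) : sr 0 w = conjCLE w := by apply Complex.ext <;> simp [sr]

lemma sr1_eq (w : ℂ) : sr 1 w = (conjCLE.trans (ContinuousLinearEquiv.neg ℝ)) w := by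
  apply Complex.ext <;> simp [sr]

/-- An even function is determined by its values in the first quadrant. -/
lemma even_abs {α : Type} {g : ℂ → α} (h0 : ∀ w, g (sr 0 w) = g w) (h1 : ∀ w, g (sr 1 w) = g w)
    (w : ℂ) : g ⟨|w.re|, |w.im|⟩ = g w := by
  have a : ∀ x y : ℝ, g ⟨|x|, y⟩ = g ⟨x, y⟩ := fun x y => by
    rcases abs_choice x with e | e <;> rw [e]
    exact h1 ⟨x, y⟩
  have b : ∀ x y : ℝ, g ⟨x, |y|⟩ = g ⟨x, y⟩ := fun x y => by
    rcases abs_choice y with e | e <;> rw [e]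
    exact h0 ⟨x, y⟩
  rw [a, b]

lemma norm_abs (w : ℂ) : ‖(⟨|w.re|, |w.im|⟩ : ℂ)‖ = ‖w‖ :=
  even_abs (g := fun w => ‖w‖) (fun w => by simp [sr0_eq]) (fun w => by simp [sr1_eq]) w

lemma two_le : (2 : WithTop ℕ∞) ≤ ∞ := WithTop.coe_le_coe.2 (le_top : (2 : ℕ∞) ≤ ⊤)

theorem grad : GradStmt := by
  intro hB κ U β A d hd om u O hv su rel gauss
  have U0 := A.ev d
  have U1 : ∀ w, U d (sr 1 w) = U d w := fun w => by
    rw [← A.sw d w, ← U0 (swp w), ← A.sw d (sr 0 (swp w))]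
    rfl
  have h0 : ∀ w, om0 (U d) (sr 0 w) = om0 (U d) w := fun w => by
    simp only [om0, U0]; simp [sr0_eq]
  have h1 : ∀ w, om0 (U d) (sr 1 w) = om0 (U d) w := fun w => by
    simp only [om0, U1]; simp [sr1_eq]
  have hs : ∀ w, om0 (U d) (swp w) = om0 (U d) w := fun w => by
    have : ‖swp w‖ = ‖w‖ := by simp [swp, Complex.norm_def, normSq_apply, add_comm]
    simp only [om0, A.sw, this]
  have mem : ∀ w : ℂ, |w.re| ≤ 1 → |w.im| ≤ 1 → (⟨|w.re|, |w.im|⟩ : ℂ) ∈ Sq :=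
    fun w a b => ⟨⟨abs_nonneg _, a⟩, abs_nonneg _, b⟩
  have Upos : ∀ w : ℂ, |w.re| ≤ 1 → |w.im| ≤ 1 → 0 < U d w := fun w a b => by
    rw [← even_abs U0 U1 w]
    linarith [(A.bd d hd _ (mem w a b)).1]
  have inb : ∀ w : ℂ, |w.re| ≤ 1 → |w.im| ≤ 1 → w ∈ box (-2) 2 := fun w a b =>
    ⟨⟨by linarith [(abs_le.1 a).1], by linarith [(abs_le.1 a).2]⟩,
      by linarith [(abs_le.1 b).1], by linarith [(abs_le.1 b).2]⟩
  have opn : IsOpen (box (-2) 2) := isOpen_Ioo.reProdIm isOpen_Ioo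
  have cdo : ∀ w : ℂ, |w.re| ≤ 1 → |w.im| ≤ 1 → w ≠ 0 → ContDiffAt ℝ 2 om w := fun w a b c =>
    (O.sm.contDiffAt ((opn.sdiff isClosed_singleton).mem_nhds ⟨inb w a b, c⟩)).of_le two_le
  have cdh : ∀ w : ℂ, |w.re| ≤ 1 → |w.im| ≤ 1 → w ≠ 0 → ContDiffAt ℝ 2 (om0 (U d)) w :=
    fun w a b c => by
    have e1 : ContDiffAt ℝ 2 (U d) w :=
      ((A.sm d).contDiffAt (isOpen_compl_singleton.mem_nhds c)).of_le two_le
    have e2 : ‖w‖ ≠ 0 := norm_ne_zero_iff.2 c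
    exact ((e1.div (contDiffAt_norm ℝ c) e2).log (div_ne_zero (Upos w a b).ne' e2)).div_const 2
  have sq1 : ∀ w ∈ Sq, |w.re| ≤ 1 ∧ |w.im| ≤ 1 := fun w hw =>
    ⟨abs_le.2 ⟨by linarith [hw.1.1], hw.1.2⟩, abs_le.2 ⟨by linarith [hw.2.1], hw.2.2⟩⟩
  obtain ⟨v, hvd⟩ : ∃ v : ℂ → ℝ, v = fun w => om w - om0 (U d) w := ⟨_, rfl⟩
  have cdv : ∀ w : ℂ, |w.re| ≤ 1 → |w.im| ≤ 1 → w ≠ 0 → ContDiffAt ℝ 2 v w := fun w a b c =>
    hvd ▸ (cdo w a b c).sub (cdh w a b c)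
  have v0 : ∀ w, v (sr 0 w) = v w := fun w => by simp only [hvd, O.sy, h0]
  have v1 : ∀ w, v (sr 1 w) = v w := fun w => by simp only [hvd, O.sy, h1]
  have vs : ∀ w, v (swp w) = v w := fun w => by simp only [hvd, O.sw, hs]
  have vb : ∀ w ∈ Sq, w ≠ 0 → |v w| ≤ 0.0002 := fun w a b => hvd ▸ hv w a b
  have dsub : ∀ e, ∀ w ∈ Sq, w ≠ 0 → dv e v w = dv e om w - dv e (om0 (U d)) w := by
    intro e w a b
    rw [hvd, dv, fderiv_fun_sub
      ((cdo w (sq1 w a).1 (sq1 w a).2 b).differentiableAt (by norm_num))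
      ((cdh w (sq1 w a).1 (sq1 w a).2 b).differentiableAt (by norm_num))]
    rfl
  have ex : ∀ w ∈ Sq, w ≠ 0 → Real.exp (2 * om w) = U d w / ‖w‖ * Real.exp (2 * v w) ∧
      Real.exp (-2 * om w) = ‖w‖ / U d w * Real.exp (-2 * v w) ∧
      |Real.exp (2 * v w) - 1| ≤ 0.000401 ∧ |Real.exp (-2 * v w) - 1| ≤ 0.000401 := by
    intro w a b
    have p : 0 < U d w / ‖w‖ := div_pos (Upos w (sq1 w a).1 (sq1 w a).2) (norm_pos_iff.2 b)
    have e : 2 * om w = Real.log (U d w / ‖w‖) + 2 * v w := by simp only [hvd, om0]; ring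
    have q := abs_le.1 (vb w a b)
    refine ⟨by rw [e, Real.exp_add, Real.exp_log p], ?_,
      exp_small (abs_le.2 ⟨by linarith [q.1], by linarith [q.2]⟩),
      exp_small (abs_le.2 ⟨by linarith [q.2], by linarith [q.1]⟩)⟩
    rw [show -2 * om w = -Real.log (U d w / ‖w‖) + -2 * v w by linarith, Real.exp_add,
      Real.exp_neg, Real.exp_log p, inv_div]
  have kb := A.kb d hd
  have kU : ∀ w ∈ Sq, 0 ≤ κ d * U d w ∧ κ d * U d w ≤ 0.03993 := fun w a => by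
    obtain ⟨b1, b2, -⟩ := A.bd d hd w a
    constructor <;> nlinarith [kb.1, kb.2]
  have lapv : ∀ w ∈ Sq, w ≠ 0 → ‖w‖ * |lap v w| ≤ 0.0006 * ‖w‖ + 0.00002 := by
    intro w a b
    obtain ⟨e1, e2, e3, e4⟩ := ex w a b
    obtain ⟨b1, b2, b3⟩ := A.bd d hd w a
    obtain ⟨m1, m2, -⟩ := norm_le_mx a
    have n : 0 < ‖w‖ := norm_pos_iff.2 b
    have mp : 0 < mx w := by linarith
    have r := A.rs d hd w a b
    have e : ‖w‖ * lap v w = -(‖w‖ * res (κ d) (U d) w) +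
        ‖w‖ * (‖w‖ / U d w) * (Real.exp (-2 * v w) - 1) -
          κ d * U d w * (Real.exp (2 * v w) - 1) := by
      rw [hvd, lap_sub (cdo w (sq1 w a).1 (sq1 w a).2 b) (cdh w (sq1 w a).1 (sq1 w a).2 b),
        O.eqw w (inb w (sq1 w a).1 (sq1 w a).2) b, e1, e2, res, ← hvd]
      field_simp
      ring
    have t1 : |‖w‖ * res (κ d) (U d) w| ≤ 0.0001 * ‖w‖ + 0.00000142 := by
      rw [abs_mul, abs_of_pos n]
      have : ‖w‖ * (0.000001 / mx w) ≤ 0.00000142 := by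
        rw [← mul_div_assoc, div_le_iff₀ mp]; linarith
      nlinarith
    have t2 : |‖w‖ * (‖w‖ / U d w) * (Real.exp (-2 * v w) - 1)| ≤ ‖w‖ * 1.23 * 0.000401 := by
      have q : ‖w‖ / U d w ≤ 1.23 := by rw [div_le_iff₀ (by linarith)]; exact b3
      have q' : 0 ≤ ‖w‖ / U d w := div_nonneg n.le (by linarith)
      rw [abs_mul, abs_of_nonneg (mul_nonneg n.le q')]
      gcongr
    have t3 : |κ d * U d w * (Real.exp (2 * v w) - 1)| ≤ 0.03993 * 0.000401 := by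
      rw [abs_mul, abs_of_nonneg (kU w a).1]
      gcongr
      exact (kU w a).2
    rw [← abs_of_pos n, ← abs_mul, abs_of_pos n, e]
    rw [abs_le] at t1 t2 t3 ⊢
    constructor <;> linarith [t1.1, t1.2, t2.1, t2.2, t3.1, t3.2]
  have neu1 : ∀ p ∈ Sq, p ≠ 0 → p.re = 0 ∨ p.re = 1 → d1 v p = 0 := by
    rintro ⟨x, y⟩ a b (c | c)
    · obtain rfl : x = 0 := c
      refine even_deriv (line1 ((cdv _ (sq1 _ a).1 (sq1 _ a).2 b).differentiableAt
        (by norm_num))) fun t => ?_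
      rw [← v1 ⟨t, y⟩]
      simp [sr]
    · obtain rfl : x = 1 := c
      have e : d1 om ⟨1, y⟩ = 0 := by
        refine even_deriv (line1 ((cdo _ (sq1 _ a).1 (sq1 _ a).2 b).differentiableAt
          (by norm_num))) fun t => ?_
        rw [← O.sy 2 ⟨t, y⟩]
        simp [sr]
      exact (dsub 1 _ a b).trans (sub_eq_zero.2 (e.trans (A.neu d hd _ a rfl).symm))
  have neu2 : ∀ p ∈ Sq, p ≠ 0 → p.im = 0 ∨ p.im = 1 → d2 v p = 0 := by
    rintro ⟨x, y⟩ a b c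
    have a' : (⟨y, x⟩ : ℂ) ∈ Sq := ⟨a.2, a.1⟩
    have b' : (⟨y, x⟩ : ℂ) ≠ 0 := fun e => b (by simpa [Complex.ext_iff, and_comm] using e)
    have l1 := line1 ((cdv _ (sq1 _ a').1 (sq1 _ a').2 b').differentiableAt (by norm_num))
    have l2 := line2 ((cdv _ (sq1 _ a).1 (sq1 _ a).2 b).differentiableAt (by norm_num))
    have e : (fun t : ℝ => v ⟨t, x⟩) = fun t : ℝ => v ⟨x, t⟩ := funext fun t => vs ⟨x, t⟩
    rw [e] at l1
    rw [l2.unique l1, neu1 _ a' b' c]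
  have key : ∀ w ∈ Sq, w ≠ 0 → |d2 v w| ≤ 0.01 / √‖w‖ := by
    intro w a b
    have n : 0 < ‖w‖ := norm_pos_iff.2 b
    obtain ⟨m1, m2, m3⟩ := norm_le_mx a
    rcases le_total ‖w‖ (1 / 4) with c | c
    · obtain ⟨z, rfl⟩ := IsAlgClosed.exists_pow_nat_eq w two_pos
      have z0 : z ≠ 0 := fun e => b (by simp [e])
      have zn : 0 < ‖z‖ := norm_pos_iff.2 z0
      rw [norm_pow] at c
      rw [norm_pow, Real.sqrt_sq zn.le]
      have zb : ‖z‖ ≤ 1 / 2 := by nlinarith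
      obtain ⟨φ, hφ⟩ : ∃ φ : ℂ → ℝ, φ = fun p => u p - Real.log (4 * κ d * U d (p ^ 2)) / 2 :=
        ⟨_, rfl⟩
      have sm : ∀ p : ℂ, ‖p‖ < 1 → |(p ^ 2).re| ≤ 1 ∧ |(p ^ 2).im| ≤ 1 := fun p hp => by
        have : ‖p ^ 2‖ ≤ 1 := by rw [norm_pow]; exact pow_le_one₀ (norm_nonneg _) hp.le
        exact ⟨(abs_re_le_norm _).trans this, (abs_im_le_norm _).trans this⟩
      have oD : IsOpen Dz := opn.preimage (continuous_pow 2)
      have cφ : ∀ p : ℂ, ‖p‖ < 1 → ContDiffAt ℝ 2 φ p := fun p hp => by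
        have e1 : ContDiffAt ℝ 2 u p :=
          (su.contDiffAt (oD.mem_nhds (inb _ (sm p hp).1 (sm p hp).2))).of_le two_le
        have e2 : ContDiffAt ℝ 2 (fun z => U d (z ^ 2)) p := (A.smz d).contDiffAt.of_le two_le
        have e3 := Upos _ (sm p hp).1 (sm p hp).2
        have e4 := O.pos
        exact hφ ▸ e1.sub (((contDiffAt_const.mul e2).log (by positivity)).div_const 2)
      have eφ : ∀ p : ℂ, ‖p‖ < 1 → p ≠ 0 → φ p = v (p ^ 2) := fun p hp hp0 => by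
        have e3 := Upos _ (sm p hp).1 (sm p hp).2
        have e4 := O.pos
        have e5 : 0 < ‖p‖ := norm_pos_iff.2 hp0
        have e6 : Real.log (4 * κ d * U d (p ^ 2)) =
            2 * Real.log (2 * √(κ d) * ‖p‖) + Real.log (U d (p ^ 2) / ‖p ^ 2‖) := by
          have e7 := Real.log_pow (2 * √(κ d) * ‖p‖) 2
          rw [Nat.cast_ofNat] at e7
          rw [← e7, norm_pow, ← Real.log_mul (by positivity) (by positivity),
            mul_pow, mul_pow, Real.sq_sqrt e4.le]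
          congr 1
          field_simp
          norm_num
        simp only [hφ, hvd, om0, rel p (inb _ (sm p hp).1 (sm p hp).2) hp0, e6]
        ring
      have ev : ∀ p : ℂ, ‖p‖ < 1 → p ≠ 0 → φ =ᶠ[𝓝 p] fun q => v (q ^ 2) := fun p hp hp0 => by
        filter_upwards [continuous_norm.continuousAt.eventually_lt continuousAt_const hp,
          isOpen_compl_singleton.mem_nhds hp0] with q h h' using eφ q h h'
      have bd : ∀ p : ℂ, ‖p‖ < 1 → p ≠ 0 → |φ p| ≤ 0.0002 ∧ |lap φ p| ≤ 0.0025 := by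
        intro p hp hp0
        have e0 : p ^ 2 ≠ 0 := pow_ne_zero 2 hp0
        have e1 := mem _ (sm p hp).1 (sm p hp).2
        have e2 : (⟨|(p ^ 2).re|, |(p ^ 2).im|⟩ : ℂ) ≠ 0 := by
          rw [← norm_ne_zero_iff, norm_abs, norm_ne_zero_iff]; exact e0
        have e3 := lapv _ e1 e2
        rw [norm_abs, even_abs (g := lap v)
          (fun w => by
            rw [sr0_eq]
            exact lap_refl _ (by simp) (by simp) (fun w => by rw [← sr0_eq, v0]) w)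
          (fun w => by
            rw [sr1_eq]
            exact lap_refl _ (by simp) (by simp) (fun w => by rw [← sr1_eq, v1]) w),
          norm_pow] at e3
        refine ⟨by rw [eφ p hp hp0, ← even_abs v0 v1]; exact vb _ e1 e2, ?_⟩
        rw [lap_congr (ev p hp hp0), lap_sq (cdv _ (sm p hp).1 (sm p hp).2 e0), abs_mul,
          abs_of_nonneg (by positivity)]
        have : ‖p‖ ^ 2 ≤ 1 := pow_le_one₀ (norm_nonneg _) hp.le
        linarith
      have bd0 : |φ 0| ≤ 0.0002 ∧ |lap φ 0| ≤ 0.0025 := by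
        have c0 := cφ 0 (by simp)
        have c2 : ∀ e, ContinuousAt (dv e (dv e φ)) 0 := fun e =>
          (contDiffAt_dv e (m := 0) (contDiffAt_dv e (m := 1) c0 (by norm_num))
            (by norm_num)).continuousAt
        have c3 : ContinuousAt (lap φ) 0 := (c2 1).add (c2 I)
        have e : ∀ᶠ q in 𝓝[≠] (0 : ℂ), |φ q| ≤ 0.0002 ∧ |lap φ q| ≤ 0.0025 := by
          filter_upwards [nhdsWithin_le_nhds (continuous_norm.continuousAt.eventually_lt
            continuousAt_const (show ‖(0 : ℂ)‖ < 1 by simp)), self_mem_nhdsWithin]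
            with q h h' using bd q h h'
        exact ⟨le_of_tendsto (c0.continuousAt.abs.tendsto.mono_left nhdsWithin_le_nhds)
          (e.mono fun _ h => h.1),
          le_of_tendsto (c3.abs.tendsto.mono_left nhdsWithin_le_nhds) (e.mono fun _ h => h.2)⟩
      have br := brandt_smooth hB (φ := φ) (z := z) (r := 1 / 5) (ε := 0.0002) (M := 0.0025)
        (by norm_num) fun p h h' => by
          have hp : ‖p‖ < 1 := by
            have e1 := norm_le_abs_re_add_abs_im (p - z)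
            have e2 := norm_add_le (p - z) z
            rw [sub_add_cancel] at e2
            rw [sub_re, sub_im] at e1
            linarith
          by_cases hp0 : p = 0
          · subst hp0
            exact ⟨cφ _ hp, bd0⟩
          · exact ⟨cφ _ hp, bd p hp hp0⟩
      have zl : ‖z‖ < 1 := by linarith
      have e1 : d2 v (z ^ 2) = fderiv ℝ φ z (I / (2 * z)) := by
        rw [(ev z zl z0).fderiv_eq]
        refine Eq.trans ?_ (dv_sq ((cdv _ (sm z zl).1 (sm z zl).2 b).differentiableAt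
          (by norm_num)) _).symm
        rw [mul_div_cancel₀ _ (mul_ne_zero two_ne_zero z0)]
        rfl
      have e2 : ∀ q : ℂ, fderiv ℝ φ z q = q.re * d1 φ z + q.im * d2 φ z := fun q => by
        conv_lhs => rw [show q = q.re • (1 : ℂ) + q.im • I by apply Complex.ext <;> simp]
        rw [map_add, map_smul, map_smul]
        rfl
      have e3 : ‖I / (2 * z)‖ = 1 / (2 * ‖z‖) := by simp
      have e4 := abs_re_le_norm (I / (2 * z))
      have e5 := abs_im_le_norm (I / (2 * z))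
      rw [e3] at e4 e5
      rw [e1, e2]
      calc _ ≤ _ := abs_add_le _ _
        _ ≤ 1 / (2 * ‖z‖) * 0.01 + 1 / (2 * ‖z‖) * 0.01 := by
          rw [abs_mul, abs_mul]
          gcongr
          · linarith [br.1]
          · linarith [br.2]
        _ = 0.01 / ‖z‖ := by ring
    · have := brandt_fold hB (M := 0.001) a (by linarith)
        (fun p h h' => cdv p (sq1 p h).1 (sq1 p h).2 h') neu1 neu2 vb fun p h h' => by
          have e1 := (norm_le_mx h).1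
          have e2 := lapv p h (norm_pos_iff.1 (by linarith))
          by_contra e3
          nlinarith
      have e : √‖w‖ ≤ 2 := Real.sqrt_le_iff.2 ⟨by norm_num, by linarith⟩
      rw [le_div_iff₀ (Real.sqrt_pos.2 n)]
      nlinarith [abs_nonneg (d2 v w), Real.sqrt_nonneg ‖w‖]
  refine ⟨O.pos, O.sm, O.sy, O.sw, su, rel, gauss, fun w a b => ?_, fun w a b => ?_,
    fun w a b => ?_, fun w a b => ?_⟩
  · obtain ⟨-, e2, -, e4⟩ := ex w a b
    obtain ⟨b1, -, -⟩ := A.bd d hd w a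
    rw [e2, div_mul_eq_mul_div, div_le_iff₀ (by linarith)]
    have := mul_le_mul_of_nonneg_left (abs_le.1 e4).2 (norm_nonneg w)
    nlinarith [norm_nonneg w]
  · obtain ⟨-, e2, -, e4⟩ := ex w a b
    obtain ⟨b1, -, b3⟩ := A.bd d hd w a
    rw [e2, div_mul_eq_mul_div, div_le_iff₀ (by linarith)]
    have := mul_le_mul_of_nonneg_left (abs_le.1 e4).2 (norm_nonneg w)
    nlinarith [norm_nonneg w]
  · obtain ⟨e1, -, e3, -⟩ := ex w a b
    rw [e1, ← mul_assoc, ← mul_div_assoc, div_mul_eq_mul_div]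
    refine div_le_div_of_nonneg_right ?_ (norm_nonneg w)
    have := mul_le_mul_of_nonneg_left (abs_le.1 e3).2 (kU w a).1
    linarith [(kU w a).2]
  · have e : d2 om w = d2 (om0 (U d)) w + d2 v w := by
      have := dsub I w a b
      change d2 v w = d2 om w - d2 (om0 (U d)) w at this
      linarith
    rw [e]
    exact (abs_add_le _ _).trans (add_le_add (A.grad d hd w a b) (key w a b))

end Pool.Agent.MP_6b3e96_gt.H96
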